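import Pool.Agent.H964.DP.Bes
import Pool.Agent.H964.DP.Cos

/-!
# Small-disorder free energy of the planar polymer with correlation `h (x) ~ (log |x|)^a / |x|^2`: Q1

Answer to Q1: yes, for every `a > -1`, and the constant is the one suggested heuristically,
`c_a = 2^((a-1)/2) (a + 2) z_a`, where `z_a` is the smallest positive zero of `J̃_α`, `α = -1/(a+2)`:
`-p (β) = exp (-(c_a / β)^(2/(a+2)) (1 + o (1)))` as `β ↓ 0`.

The theorem holds for all symmetric positive definite correlations `h` on `ℤ²` with `h 0 = 1` and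
`h (x) ~ (log |x|)^a / |x|^2` (in the problem `h` is moreover nonnegative and a convolution square of a
nonnegative function, in particular symmetric and positive definite).

Outline. Put `μ = ((a + 2) z_a / 2)^2`: the solution of `Ψ'' = -μ y^a Ψ`, `Ψ 0 = 1`, `Ψ' 0 = 0` has its first
zero at `1`; `L_c = (μ / (2 β^2))^(1/(a+2))` is the critical logarithmic scale.

Upper bound for `-p`: second moment of the partition function restricted to a box at the scale
`N = exp (2 (1 - ε) L_c)` with a supersolution of the two-walk operator built from the profile `Ψ`,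
Gaussian concentration and superadditivity.

Lower bound for `-p`: fractional moment and coarse graining; the change of measure in one block is the
indicator of the event that a polynomial chaos of order `q ~ C log L` of the averaged environment,
restricted to short chains, is large. Its first moment under the size-biased law is bounded below by a
subsolution built from the profile, its second moments by supersolutions at a slightly larger scale; both
exponential rates match up to `ε`, and the gain is an arbitrarily large power of `L`.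
-/

set_option autoImplicit false

open MeasureTheory ProbabilityTheory Filter Topology

namespace Pool.Agent.Results.MP_b30792_pr.SharpFreeEnergy

/-- The Bessel function of the first kind, for `x > 0`:
`J_ν (x) = ∑_k (-1)^k / (k! Γ (k + ν + 1)) (x / 2)^(2 k + ν)`. -/
noncomputable def besselJ (ν x : ℝ) : ℝ :=
  ∑' k : ℕ, (-1) ^ k / (k.factorial * Real.Gamma (k + ν + 1)) * (x / 2) ^ (2 * (k : ℝ) + ν)

/-- `J̃_ν (x) = Γ (ν + 1) (x / 2)^(-ν) J_ν (x)`, for `x > 0`. -/
noncomputable def besselT (ν x : ℝ) : ℝ := Real.Gamma (ν + 1) * (x / 2) ^ (-ν) * besselJ ν x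

/-- `z` is the smallest positive zero of `J̃_ν`. -/
def IsFirstZero (ν z : ℝ) : Prop := 0 < z ∧ besselT ν z = 0 ∧ ∀ x, 0 < x → x < z → besselT ν x ≠ 0

/-- The squared Euclidean norm. -/
def normSq (x : Fin 2 → ℤ) : ℝ := ∑ i : Fin 2, (x i : ℝ) ^ 2

/-- Symmetric positive definite `h` on `ℤ²` with `h 0 = 1` and `h (x) ~ (log |x|)^a / |x|^2`. -/
structure IsCorrelation (a : ℝ) (h : (Fin 2 → ℤ) → ℝ) : Prop where
  symm : ∀ x, h (-x) = h x
  posDef : ∀ (s : Finset (Fin 2 → ℤ)) (b : (Fin 2 → ℤ) → ℝ), 0 ≤ ∑ x ∈ s, ∑ y ∈ s, b x * b y * h (x - y)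
  zero : h 0 = 1
  decay : Tendsto (fun x => h x * normSq x / Real.log (Real.sqrt (normSq x)) ^ a) cofinite (𝓝 1)

/-- The environment: measurable, and all finite linear combinations are centred Gaussian with the
covariance `E [ω (n, y) ω (m, z)] = 1_{n = m} h (y - z)`. -/
structure IsEnvironment {Ω : Type} [MeasurableSpace Ω] (P : Measure Ω) (h : (Fin 2 → ℤ) → ℝ)
    (ω : ℕ → (Fin 2 → ℤ) → Ω → ℝ) : Prop where
  measurable : ∀ n x, Measurable (ω n x)
  gaussian : ∀ (s : Finset (ℕ × (Fin 2 → ℤ))) (b : ℕ × (Fin 2 → ℤ) → ℝ),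
    P.map (fun o => ∑ i ∈ s, b i * ω i.1 i.2 o) = gaussianReal 0 (Real.toNNReal
      (∑ i ∈ s, ∑ j ∈ s, b i * b j * (if i.1 = j.1 then h (i.2 - j.2) else 0)))

/-- The position at time `n` of the walk from `0` with the increments `σ`. -/
def walk {N : ℕ} (σ : Fin N → Fin 2 × Bool) (n : ℕ) : Fin 2 → ℤ :=
  ∑ k ∈ Finset.univ.filter (fun k : Fin N => k.val < n), (Pi.single (σ k).1 (if (σ k).2 then (1 : ℤ) else -1) : Fin 2 → ℤ)

/-- The normalised partition function
`W_N = E [exp (∑_{n=1}^N (β ω (n, S_n) - β^2 / 2))]`: uniform average over the `4^N` sequences of steps. -/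
noncomputable def partitionFunction (β : ℝ) (N : ℕ) (w : ℕ → (Fin 2 → ℤ) → ℝ) : ℝ :=
  ((4 : ℝ) ^ N)⁻¹ * ∑ σ : Fin N → Fin 2 × Bool, Real.exp (∑ n ∈ Finset.Icc 1 N, (β * w n (walk σ n) - β ^ 2 / 2))

/-- `p` is the free energy: for every `β > 0`, `N⁻¹ log W_N → p β` almost surely. -/
def IsFreeEnergy {Ω : Type} [MeasurableSpace Ω] (P : Measure Ω) (ω : ℕ → (Fin 2 → ℤ) → Ω → ℝ) (p : ℝ → ℝ) : Prop :=
  ∀ β : ℝ, 0 < β → ∀ᵐ o ∂P,
    Tendsto (fun N : ℕ => Real.log (partitionFunction β N (fun n x => ω n x o)) / N) atTop (𝓝 (p β))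

/-- For every `a > -1` let `z` be the smallest positive zero of `J̃_α`, `α = -1/(a+2)`, and
`c = 2^((a-1)/2) (a + 2) z`. For every correlation `h` with `h (x) ~ (log |x|)^a / |x|^2` the free energy is
negative for small `β > 0`, `β^(2/(a+2)) log (-p β) → -c^(2/(a+2))` as `β ↓ 0`, that is
`-p β = exp (-(c / β)^(2/(a+2)) (1 + r β))` with `r β → 0`. -/
theorem result (a : ℝ) (ha : -1 < a) : ∃ z : ℝ, IsFirstZero (-1 / (a + 2)) z ∧
    ∀ c : ℝ, c = 2 ^ ((a - 1) / 2) * (a + 2) * z →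
    ∀ h : (Fin 2 → ℤ) → ℝ, IsCorrelation a h →
    ∀ (Ω : Type) [MeasurableSpace Ω] (P : Measure Ω) [IsProbabilityMeasure P] (ω : ℕ → (Fin 2 → ℤ) → Ω → ℝ),
    IsEnvironment P h ω → ∀ p : ℝ → ℝ, IsFreeEnergy P ω p →
      (∀ᶠ β in 𝓝[>] (0 : ℝ), p β < 0) ∧
      Tendsto (fun β : ℝ => β ^ (2 / (a + 2)) * Real.log (-p β)) (𝓝[>] 0) (𝓝 (-(c ^ (2 / (a + 2))))) ∧
      ∃ r : ℝ → ℝ, Tendsto r (𝓝[>] 0) (𝓝 0) ∧
        ∀ᶠ β in 𝓝[>] (0 : ℝ), -p β = Real.exp (-((c / β) ^ (2 / (a + 2)) * (1 + r β))) := by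
  obtain ⟨z, μ, hz, hμ, hz0, hzp, hSup, hSub, hval⟩ := Pool.Agent.H964.DP.bessel_first ha
  refine ⟨z, ⟨hz, hz0, fun x hx hxz => (hzp x hx hxz).ne'⟩, ?_⟩
  intro c hc h hh Ω _ P _ ω hω p hp
  obtain ⟨h1, h2⟩ := Pool.Agent.H964.DP.sharp_fin ha hμ hSup hSub h hh.symm hh.posDef hh.zero hh.decay Ω P ω
    hω.measurable hω.gaussian p hp
  rw [hval, ← hc] at h2
  have hc0 : 0 < c := by
    rw [hc]
    have : 0 < a + 2 := by linarith
    positivity
  exact ⟨h1, h2, Pool.Agent.H964.DP.exp_form hc0 h1 h2⟩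

end Pool.Agent.Results.MP_b30792_pr.SharpFreeEnergy
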